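import Pool.Agent.Helper9CH.KHPlain
import Pool.Agent.Results.MP_e6371f_lc.KurepaRetract

/-!
# It is consistent that some closed continuous image of `ω₁^ω₁` cannot be made `(ω+1)`-perfect

The continuum hypothesis and the Kurepa hypothesis can be forced together, and they give
a counterexample at `κ = ω₁`. The forcing language is the one of `Pool.Agent.Helper292.ForceCH`:
a sentence is represented by the set of the conditions which force it, with the usual clauses for
the connectives.
-/

set_option autoImplicit false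

open Cardinal Set

namespace Pool.Agent.Results.MP_e6371f_lc.ConsistentlyNot

open Pool.Agent.Helper9CH.KH Pool.Agent.V11245.OmegaPerf

/-- (1) Some forcing notion forces, below every condition, that `ω₁` is preserved, the continuum
hypothesis and the Kurepa hypothesis. (2) The plain forms of the last two sentences are equivalent
to `𝔠 = ℵ₁` and to the existence of a Kurepa family: at least `ℵ₂` subsets of `ω₁` with only
countably many traces on every `α < ω₁`. (3) They imply the negated form of the question for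
`κ = ω₁`: some closed `E ⊆ ω₁^ω₁` is a continuous image of `ω₁^ω₁`, and `E \ X` is not
`(ω+1)`-perfect whenever `X ⊆ E` and `|X| ≤ ω₁^{<ω₁}`. -/
theorem result :
    (∃ (P : Type) (_ : Preorder P), Nonempty P ∧ ∀ p : P,
      p ∈ Pool.Agent.Helper292.ForceCH.OmegaOnePreserved P ∧
      p ∈ Pool.Agent.Helper292.ForceCH.CHHolds P ∧ p ∈ KHHolds P) ∧
    ((PlainCH ↔ (𝔠 : Cardinal.{0}) = ℵ₁) ∧ (PlainKH ↔ KurepaHypothesis.{0})) ∧
    (PlainCH → PlainKH → ∃ E : Set (Pt (ℵ₁ : Cardinal.{0})), IsClosed E ∧
      (∃ f : Pt (ℵ₁ : Cardinal.{0}) → Pt (ℵ₁ : Cardinal.{0}), Continuous f ∧ range f = E) ∧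
        ∀ X ⊆ E, #X ≤ (ℵ₁ : Cardinal.{0}) ^< ℵ₁ → ¬ OmegaPlusOnePerfect (E \ X)) := by
  refine ⟨exists_forcing, ⟨plainCH_iff, plainKH_iff⟩, fun h1 h2 => ?_⟩
  exact KurepaRetract.result.{0}.1 ℵ₁ isRegular_aleph_one aleph0_lt_aleph_one
    (KurepaRetract.result.{0}.2 (plainCH_iff.1 h1) (plainKH_iff.1 h2))

end Pool.Agent.Results.MP_e6371f_lc.ConsistentlyNot
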